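import Pool.Agent.Lib.H76Q.Q1

/-! # H45P, P0: the arithmetic conditions for `m`-th powers -/

set_option autoImplicit false
set_option linter.unusedSectionVars false

namespace H45P

open Pool.Agent.H76Q

/-- The subgroup generated by the `m`-th powers and the commutators of the elements of the image of `ρ`. -/
def PC {G H : Type*} [Group G] [Group H] (m : ℕ) (ρ : G →* H) : Subgroup H :=
  Subgroup.closure ((Set.range fun g => ρ g ^ m) ∪ {x | ∃ g h, x = ρ g * ρ h * (ρ g)⁻¹ * (ρ h)⁻¹})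

/-- `x` is the `m`-th power of an element of `L`. -/
def PowIn (m : ℕ) (L : Type*) {K : Type*} [Field L] [Field K] [Algebra L K] (x : K) : Prop := ∃ y : L, x = algebraMap L K y ^ m

/-- The arithmetic conditions: `R` is the set of conjugates of the generator `π` of the place. -/
structure ArithM (m : ℕ) {Ω : Type*} [Field Ω] (R : Finset Ω) (N : Set ℕ) {G : Type*} [Group G]
    {ι : Type*} [Fintype ι] [DecidableEq ι]
    (ρ : ∀ (l : ℕ) [Fact l.Prime], G →* Matrix.GeneralLinearGroup ι ℚ_[l]) (σ : G) : Prop where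
  recl : ∀ (l : ℕ) [Fact l.Prime], l ∉ N → ∀ i : Ω →+* AlgebraicClosure ℚ_[l],
    (∀ r ∈ R, PowIn m ℚ_[l] (i r)) → ρ l σ ∈ PC m (ρ l)
  cheb : ∀ Γ : Subgroup (Ω ≃+* Ω), (∃ T : Finset Ω, ∀ s : Ω ≃+* Ω, (∀ x ∈ T, s x = x) → s ∈ Γ) →
    (∀ s ∈ Γ, ∀ z : Ω, z ^ m = 1 → s z = z) →
    (∀ s ∈ Γ, ∀ r ∈ R, s r = r) → ∀ a : Ω, a ≠ 0 → (∀ s ∈ Γ, s a = a) →
    (∀ (l : ℕ) [Fact l.Prime], l ∉ N → ∀ i : Ω →+* AlgebraicClosure ℚ_[l],
      Dec ℚ_[l] Γ i → (∀ r ∈ R, PowIn m ℚ_[l] (i r)) → PowIn m ℚ_[l] (i a)) →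
    ∃ (x : Ω → ℕ) (c : Ω), c ≠ 0 ∧ (∀ s ∈ Γ, s c = c) ∧ a = (∏ r ∈ R, r ^ x r) * c ^ m

end H45P
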