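import Pool.Agent.Lib.H45K.K1
import Pool.Agent.Lib.H45P.P0

/-! # H45P, P1: the subgroup generated by the m-th powers in the image of a compact group in `GL_n(ℚ_l)`, `l` prime to `m`, is open -/

set_option autoImplicit false
set_option linter.unusedSectionVars false

namespace H45P

open Filter Topology H45K

section

variable {l : ℕ} [hlp : Fact l.Prime] {ι : Type*} [Fintype ι] [DecidableEq ι]
variable {G : Type*} [Group G] [TopologicalSpace G] [IsTopologicalGroup G] [CompactSpace G]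

/-- An element of the image which is near 1 is an `m`-th power in the image. -/
theorem exists_root {m : ℕ} (hm0 : m ≠ 0) (hm : ¬ l ∣ m) (ρ : G →* Matrix.GeneralLinearGroup ι ℚ_[l])
    (hc : Continuous fun g => (ρ g : Matrix ι ι ℚ_[l]))
    (g : G) (hg : ∀ i j, ‖((ρ g : Matrix ι ι ℚ_[l]) - 1) i j‖ < 1) : ∃ h : G, ρ h ^ m = ρ g := by
  have hcop : Nat.Coprime l m := (Nat.Prime.coprime_iff_not_dvd hlp.out).2 hm
  have hdiv : ∀ k : ℕ, ∃ e : ℕ, e * m = l ^ (m.totient * k) * (m - 1) + 1 := by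
    intro k
    have h1 : l ^ (m.totient * k) ≡ 1 [MOD m] := by
      rw [pow_mul]
      have h2 := (Nat.ModEq.pow_totient hcop).pow k
      rwa [one_pow] at h2
    have h2 : l ^ (m.totient * k) * (m - 1) + 1 ≡ 1 * (m - 1) + 1 [MOD m] := (h1.mul_right _).add_right _
    have h3 : 1 * (m - 1) + 1 = m := by omega
    rw [h3] at h2
    obtain ⟨e, he⟩ := (Nat.modEq_zero_iff_dvd).1 (h2.trans (Nat.modEq_zero_iff_dvd.2 dvd_rfl))
    exact ⟨e, by rw [he, mul_comm]⟩
  choose e he using hdiv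
  obtain ⟨h, -, hh⟩ := isCompact_univ.exists_mapClusterPt (f := (atTop : Filter ℕ)) (u := fun k => g ^ e k) (by simp)
  obtain ⟨F, hF⟩ := mapClusterPt_iff_ultrafilter.1 hh
  refine ⟨h, Units.ext ?_⟩
  have h2 : Tendsto (fun k : ℕ => ((ρ (g ^ e k) : Matrix ι ι ℚ_[l])) ^ m) F (𝓝 ((ρ h : Matrix ι ι ℚ_[l]) ^ m)) :=
    ((hc.tendsto h).comp hF.2).pow m
  have htot : Tendsto (fun k : ℕ => m.totient * k) atTop atTop :=
    tendsto_id.const_mul_atTop' (Nat.totient_pos.2 (Nat.pos_of_ne_zero hm0))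
  have h3 : Tendsto (fun k : ℕ => ((ρ (g ^ e k) : Matrix ι ι ℚ_[l])) ^ m) F (𝓝 (1 ^ (m - 1) * (ρ g : Matrix ι ι ℚ_[l]))) := by
    have h4 := (((tendsto_one (ρ g : Matrix ι ι ℚ_[l]) hg).comp htot).mono_left hF.1).pow (m - 1) |>.mul_const (ρ g : Matrix ι ι ℚ_[l])
    refine h4.congr fun k => ?_
    simp only [Function.comp]
    rw [map_pow, Units.val_pow_eq_pow_val, ← pow_mul, ← pow_mul, he k, pow_succ]
  rw [Units.val_pow_eq_pow_val, tendsto_nhds_unique h2 h3, one_pow, one_mul]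

/-- The subgroup of all elements whose image is in `PC m ρ` is open. -/
theorem open_pow {m : ℕ} (hm0 : m ≠ 0) (hm : ¬ l ∣ m) (ρ : G →* Matrix.GeneralLinearGroup ι ℚ_[l])
    (hc : Continuous fun g => (ρ g : Matrix ι ι ℚ_[l])) :
    IsOpen (((PC m ρ).comap ρ : Subgroup G) : Set G) := by
  apply Subgroup.isOpen_of_mem_nhds (g := 1)
  have h1 : ∀ᶠ g in 𝓝 (1 : G), ∀ i j, ‖((ρ g : Matrix ι ι ℚ_[l]) - 1) i j‖ < 1 := by
    rw [eventually_all]
    intro i
    rw [eventually_all]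
    intro j
    have h2 : Continuous fun g => ‖((ρ g : Matrix ι ι ℚ_[l]) - 1) i j‖ := by
      have h3 : Continuous fun g => ((ρ g : Matrix ι ι ℚ_[l]) - 1) i j := (hc.sub continuous_const).matrix_elem i j
      exact h3.norm
    have h4 : ‖((ρ 1 : Matrix ι ι ℚ_[l]) - 1) i j‖ < 1 := by
      rw [map_one, Units.val_one, sub_self, Matrix.zero_apply, norm_zero]
      exact one_pos
    exact h2.tendsto 1 |>.eventually_lt_const h4
  filter_upwards [h1] with g hg
  obtain ⟨h, hh⟩ := exists_root hm0 hm ρ hc g hg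
  show ρ g ∈ PC m ρ
  rw [← hh]
  exact Subgroup.subset_closure (Or.inl ⟨h, rfl⟩)

end

/-- A subgroup which contains all `m`-th powers and commutators is the kernel of a homomorphism to an abelian group of exponent `m`. -/
theorem exists_charm {G : Type} [Group G] (m : ℕ) (H : Subgroup G) (hH : ∀ g : G, g ^ m ∈ H) (hH2 : ∀ g h : G, g * h * g⁻¹ * h⁻¹ ∈ H) :
    ∃ (A : Type) (_ : CommGroup A) (χ : G →* A), χ.ker = H ∧ ∀ g, χ g ^ m = 1 := by
  have hn : H.Normal := by
    constructor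
    intro h hh x
    have e : x * h * x⁻¹ = (x * h * x⁻¹ * h⁻¹) * h := by group
    rw [e]
    exact H.mul_mem (hH2 _ _) hh
  have hcomm : ∀ a b : G ⧸ H, a * b = b * a := by
    intro a b
    obtain ⟨g, rfl⟩ := QuotientGroup.mk_surjective a
    obtain ⟨h, rfl⟩ := QuotientGroup.mk_surjective b
    rw [← QuotientGroup.mk_mul, ← QuotientGroup.mk_mul, QuotientGroup.eq]
    have e : (g * h)⁻¹ * (h * g) = h⁻¹ * g⁻¹ * (h⁻¹)⁻¹ * (g⁻¹)⁻¹ := by group
    rw [e]
    exact hH2 _ _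
  refine ⟨G ⧸ H, { (inferInstance : Group (G ⧸ H)) with mul_comm := hcomm }, QuotientGroup.mk' H, QuotientGroup.ker_mk' H, fun g => ?_⟩
  show (QuotientGroup.mk g : G ⧸ H) ^ m = 1
  rw [← QuotientGroup.mk_pow, QuotientGroup.eq_one_iff]
  exact hH g

end H45P
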