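import Mathlib

/-! # H45P, P13: an integer congruent to 1 modulo m^2 v is an m-th power in F_v (Newton iteration) -/

set_option autoImplicit false
set_option linter.unusedSectionVars false

namespace H45P
open NumberField IsDedekindDomain WithZero

variable {F : Type} [Field F] [NumberField F]

theorem pow_of_cong (v : HeightOneSpectrum (𝓞 F)) {m : ℕ} (hm : m ≠ 0) (π : 𝓞 F) (h : π - 1 ∈ Ideal.span {(m : 𝓞 F) ^ 2} * v.asIdeal) :
    ∀ N : ℕ, ∃ y : F, v.valuation F ((π : F) - y ^ m) < exp (-(N : ℤ)) := by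
  set val := v.valuation F with hval
  have hmF : (m : F) ≠ 0 := Nat.cast_ne_zero.2 hm
  have hv2 : val (m : F) ≤ 1 := by
    have := v.valuation_le_one (K := F) (m : 𝓞 F)
    have h0 : ((m : 𝓞 F) : F) = m := map_natCast (algebraMap (𝓞 F) F) m
    exact h0 ▸ this
  have hv20 : val (m : F) ≠ 0 := (Valuation.ne_zero_iff _).2 hmF
  have hv41 : val (m : F) ^ 2 ≤ 1 := pow_le_one' hv2 2
  have key : ∀ n : ℕ, ∃ y : F, val y = 1 ∧ val (y ^ m - π) ≤ val (m : F) ^ 2 * exp (-((n : ℤ) + 1)) := by
    intro n
    induction n with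
    | zero =>
      refine ⟨1, map_one _, ?_⟩
      rw [Ideal.mem_span_singleton_mul] at h
      obtain ⟨z, hz, hz2⟩ := h
      have h3 : ((1 : F) ^ m - π) = -((m : F) ^ 2 * (z : F)) := by
        have := congrArg (fun t : 𝓞 F => (t : F)) hz2
        simp only [map_mul, map_sub, map_one, map_pow, map_natCast] at this
        rw [this, one_pow]; ring
      rw [h3, Valuation.map_neg, map_mul, map_pow]
      refine mul_le_mul_right (α := ℤᵐ⁰) ?_ _
      have h5 : val (z : F) < 1 := (v.valuation_lt_one_iff_mem z).2 hz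
      have h6 : val (z : F) ≤ exp (-1 : ℤ) := by
        by_contra hc
        push Not at hc
        have hne : val (z : F) ≠ 0 := fun h0 => by rw [h0] at hc; exact absurd hc (by simp)
        obtain ⟨k, hk⟩ : ∃ k : ℤ, val (z : F) = exp k := ⟨log (val (z : F)), (exp_log hne).symm⟩
        rw [hk] at hc h5
        rw [exp_lt_exp] at hc
        rw [← exp_zero, exp_lt_exp] at h5
        omega
      simpa using h6
    | succ n ih =>
      obtain ⟨y, hy, hy2⟩ := ih
      have hy0 : y ≠ 0 := by
        rintro rfl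
        rw [map_zero] at hy
        exact zero_ne_one hy
      set e := y ^ m - (π : F) with he
      obtain ⟨s, hs⟩ : ∃ s : F, s = -(e / (m * y ^ (m - 1))) := ⟨_, rfl⟩
      have he2 : val s ≤ val (m : F) * exp (-((n : ℤ) + 1)) := by
        rw [hs, Valuation.map_neg, map_div₀, map_mul, map_pow, hy, one_pow, mul_one]
        rw [div_le_iff₀ (zero_lt_iff.2 hv20)]
        calc val e ≤ val (m : F) ^ 2 * exp (-((n : ℤ) + 1)) := hy2
          _ = val (m : F) * exp (-((n : ℤ) + 1)) * val (m : F) := by rw [pow_two, mul_assoc, mul_assoc, mul_comm (val (m : F)) (exp _)]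
      have he3 : val s < 1 := by
        refine lt_of_le_of_lt he2 ?_
        calc val (m : F) * exp (-((n : ℤ) + 1)) ≤ 1 * exp (-((n : ℤ) + 1)) := mul_le_mul_left (α := ℤᵐ⁰) hv2 _
          _ < 1 := by
            rw [one_mul, ← exp_zero, exp_lt_exp]
            omega
      obtain ⟨c, hc1, hc2⟩ : ∃ c : F, val c ≤ 1 ∧ (y + s) ^ m = y ^ m + m * y ^ (m - 1) * s + c * s ^ 2 := by
        let y' : val.integer := ⟨y, hy.le⟩
        let s' : val.integer := ⟨s, he3.le⟩
        obtain ⟨k, hk⟩ := Polynomial.powAddExpansion y' s' m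
        refine ⟨k, k.2, ?_⟩
        have := congrArg (fun t : val.integer => (t : F)) hk
        simpa [y', s'] using this
      refine ⟨y + s, ?_, ?_⟩
      · rw [Valuation.map_add_eq_of_lt_left, hy]
        rw [hy]
        exact he3
      · have h3 : (y + s) ^ m - π = c * s ^ 2 := by
          have h4 : (m : F) * y ^ (m - 1) * s = -e := by
            rw [hs]
            field_simp
          rw [hc2, h4, he]
          ring
        rw [h3, map_mul, map_pow]
        calc val c * val s ^ 2 ≤ 1 * (val (m : F) * exp (-((n : ℤ) + 1))) ^ 2 := mul_le_mul' hc1 (pow_le_pow_left' he2 2)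
          _ = val (m : F) ^ 2 * exp (-((n : ℤ) + 1) + -((n : ℤ) + 1)) := by
            rw [one_mul, exp_add, mul_pow, pow_two (exp _)]
          _ ≤ val (m : F) ^ 2 * exp (-(((n + 1 : ℕ) : ℤ) + 1)) := by
            refine mul_le_mul_right (α := ℤᵐ⁰) ?_ _
            rw [exp_le_exp]
            push_cast
            omega
  intro N
  obtain ⟨y, -, hy⟩ := key N
  refine ⟨y, ?_⟩
  rw [← Valuation.map_neg, neg_sub]
  refine lt_of_le_of_lt hy ?_
  calc val (m : F) ^ 2 * exp (-((N : ℤ) + 1)) ≤ 1 * exp (-((N : ℤ) + 1)) := mul_le_mul_left (α := ℤᵐ⁰) hv41 _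
    _ < exp (-(N : ℤ)) := by
      rw [one_mul, exp_lt_exp]
      omega

end H45P
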