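import Pool.Agent.Lib.H45P.P1
import Pool.Agent.Lib.H45K.K2
import Pool.Agent.Lib.H45K.PowRec
import Pool.Agent.Lib.CFT.N11

/-! # H45P, P3: the image of Frobenius is a product of m-th powers and commutators -/

set_option autoImplicit false
set_option linter.unusedSectionVars false

open NumberField IsDedekindDomain

namespace H45P

open CFT ST32 H45K

section

variable {F : Type} [Field F] [NumberField F] {l : ℕ} [hlp : Fact l.Prime] {m : ℕ}

/-- If `π` is the square of an element of `ℚ_l` under an embedding which induces the place `v` then `π` is a local square at `v`. -/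
theorem locPow_of_emb {v : Pr F} {σ : F →+* AlgebraicClosure ℚ_[l]} (hσ : ∀ x : 𝓞 F, x ∈ v.asIdeal ↔ ‖σ x‖ < 1) {π : F}
    (hπ : ∃ y : ℚ_[l], σ π = algebraMap ℚ_[l] (AlgebraicClosure ℚ_[l]) y ^ m) : LocPow m v π := by
  intro N
  obtain ⟨y, hy⟩ := hπ
  have hl0 : (l : ℚ_[l]) ≠ 0 := Nat.cast_ne_zero.2 hlp.out.ne_zero
  have hlF : (l : F) ≠ 0 := Nat.cast_ne_zero.2 hlp.out.ne_zero
  have hε : 0 < ‖(l : ℚ_[l]) ^ (N + 1)‖ := norm_pos_iff.2 (pow_ne_zero _ hl0)
  have hopen : IsOpen {z : ℚ_[l] | ‖y ^ m - z ^ m‖ < ‖(l : ℚ_[l]) ^ (N + 1)‖} :=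
    isOpen_lt (by fun_prop) continuous_const
  obtain ⟨q, hq⟩ := (Padic.denseRange_ratCast l).exists_mem_open hopen ⟨y, by
    rw [Set.mem_ofPred_eq, sub_self, norm_zero]
    exact hε⟩
  rw [Set.mem_ofPred_eq] at hq
  refine ⟨(q : F), ?_⟩
  have h1 : σ ((π - (q : F) ^ m) / (l : F) ^ (N + 1)) = algebraMap ℚ_[l] (AlgebraicClosure ℚ_[l]) ((y ^ m - (q : ℚ_[l]) ^ m) / (l : ℚ_[l]) ^ (N + 1)) := by
    simp only [map_div₀, map_sub, map_pow, map_natCast, map_ratCast, hy]
  have h2 : ‖σ ((π - (q : F) ^ m) / (l : F) ^ (N + 1))‖ ≤ 1 := by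
    rw [h1, PadicAlgCl.norm_extends, norm_div, div_le_one hε]
    exact hq.le
  have h3 := val_le_of_norm hσ h2
  have h4 : v.valuation F (l : F) ≤ WithZero.exp (-1 : ℤ) := by
    have h5 : ((l : 𝓞 F)) ∈ v.asIdeal := by
      rw [hσ]
      have h6 : σ ((l : 𝓞 F) : F) = algebraMap ℚ_[l] (AlgebraicClosure ℚ_[l]) (l : ℚ_[l]) := by
        have h7 : ((l : 𝓞 F) : F) = (l : F) := by
          show algebraMap (𝓞 F) F (l : 𝓞 F) = _
          rw [map_natCast]
        rw [h7, map_natCast, map_natCast]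
      rw [h6, PadicAlgCl.norm_extends]
      exact Padic.norm_p_lt_one
    have h6 : v.valuation F (algebraMap (𝓞 F) F (l : 𝓞 F)) ≤ WithZero.exp (-((1 : ℕ) : ℤ)) := by
      rw [v.valuation_of_algebraMap, v.intValuation_le_pow_iff_mem, pow_one]
      exact h5
    rw [map_natCast] at h6
    exact h6
  have hv0 : v.valuation F ((l : F) ^ (N + 1)) ≠ 0 := by
    rw [Valuation.ne_zero_iff]
    exact pow_ne_zero _ hlF
  have h5 : v.valuation F (π - (q : F) ^ m) ≤ v.valuation F ((l : F) ^ (N + 1)) := by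
    rw [map_div₀] at h3
    have h6 := mul_le_mul_left h3 (v.valuation F ((l : F) ^ (N + 1)))
    rwa [div_mul_cancel₀ _ hv0, one_mul] at h6
  refine h5.trans_lt ?_
  rw [map_pow]
  calc v.valuation F (l : F) ^ (N + 1) ≤ (WithZero.exp (-1 : ℤ)) ^ (N + 1) := pow_le_pow_left' h4 _
    _ = WithZero.exp (-((N : ℤ) + 1)) := by
        rw [← WithZero.exp_nsmul]
        congr 1
        simp
    _ < WithZero.exp (-(N : ℤ)) := by
        rw [WithZero.exp_lt_exp]
        omega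

variable {Om : Type} [Field Om] [Algebra F Om] [IsAlgClosure F Om]

/-- RECIPROCITY MODULO m-TH POWERS. Let `l` be prime to `m`, `ρ` continuous and unramified outside `S` and `l`, `σ` a Frobenius element at a place `w` outside `S`
and `l` which is generated by `π`, where `π` is totally positive, a local `m`-th power at all places of `S`, and every conjugate of `π` is, under the
embedding `i` into the algebraic closure of `ℚ_l`, the `m`-th power of an element of `ℚ_l`. Then `ρ σ` is a product of `m`-th powers and commutators of elements of the image. -/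
theorem reclm (hm0 : m ≠ 0) (hlm : ¬ l ∣ m) {ι : Type*} [Fintype ι] [DecidableEq ι] (ρ : (Om ≃ₐ[F] Om) →* Matrix.GeneralLinearGroup ι ℚ_[l])
    (hc : Continuous fun g => (ρ g : Matrix ι ι ℚ_[l])) (S : Finset (Pr F))
    (hS : ∀ v ∉ S, (l : 𝓞 F) ∉ v.asIdeal → ∀ P : Ideal (𝓞 Om), Above v P → ∀ g : Om ≃ₐ[F] Om, Inert P g → ρ g = 1)
    (w : Pr F) (hw : w ∉ S) (hwl : (l : 𝓞 F) ∉ w.asIdeal) (σ : Om ≃ₐ[F] Om) (hσ : IsFrv w σ) (π : F) (hπ : dv π = Finsupp.single w 1)
    (hpos : ∀ φ : F →+* ℝ, 0 < φ π) (hsq : ∀ v ∈ S, LocPow m v π) (i : Om →+* AlgebraicClosure ℚ_[l])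
    (hi : ∀ τ : F →+* Om, ∃ y : ℚ_[l], i (τ π) = algebraMap ℚ_[l] (AlgebraicClosure ℚ_[l]) y ^ m) :
    ρ σ ∈ PC m ρ := by
  classical
  obtain ⟨H, hH⟩ : ∃ H, H = (PC m ρ).comap ρ := ⟨_, rfl⟩
  have hopen : IsOpen (H : Set (Om ≃ₐ[F] Om)) := by
    rw [hH]
    exact open_pow hm0 hlm ρ hc
  have hsqH : ∀ g : Om ≃ₐ[F] Om, g ^ m ∈ H := by
    intro g
    rw [hH, Subgroup.mem_comap, map_pow]
    exact Subgroup.subset_closure (Or.inl ⟨g, rfl⟩)
  have hcoH : ∀ g h : Om ≃ₐ[F] Om, g * h * g⁻¹ * h⁻¹ ∈ H := by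
    intro g h
    rw [hH, Subgroup.mem_comap, map_mul, map_mul, map_mul, map_inv, map_inv]
    exact Subgroup.subset_closure (Or.inr ⟨g, h, rfl⟩)
  obtain ⟨A, hA, χ, hker, hχ2⟩ := exists_charm m H hsqH hcoH
  have hfin := over_fin F {l}
  obtain ⟨T, hT⟩ : ∃ T : Finset (Pr F), ∀ v, v ∈ T ↔ (l : 𝓞 F) ∈ v.asIdeal := by
    refine ⟨hfin.toFinset, fun v => ?_⟩
    rw [Set.Finite.mem_toFinset]
    constructor
    · rintro ⟨p, hp, -, hpv⟩
      rwa [Finset.mem_singleton.1 hp] at hpv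
    · intro h
      exact ⟨l, Finset.mem_singleton_self l, hlp.out, h⟩
  have hunr : ∀ v ∉ S ∪ T, UnrV χ v := by
    intro v hv P hP g hg
    rw [Finset.mem_union, not_or, hT] at hv
    have h1 := hS v hv.1 hv.2 P hP g hg
    rw [← MonoidHom.mem_ker, hker, hH, Subgroup.mem_comap, h1]
    exact Subgroup.one_mem _
  have hex : ∀ v : Pr F, ∃ g : Om ≃ₐ[F] Om, IsFrv v g ∧ (v = w → g = σ) := by
    intro v
    by_cases hv : v = w
    · subst hv
      exact ⟨σ, hσ, fun _ => rfl⟩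
    · obtain ⟨g, hg⟩ := exists_frv (Om := Om) v
      exact ⟨g, hg, fun h => absurd h hv⟩
  choose Fr hFr hFw using hex
  have hwT : w ∉ S ∪ T := by
    rw [Finset.mem_union, not_or, hT]
    exact ⟨hw, hwl⟩
  have hloc : ∀ v ∈ S ∪ T, LocPow m v π := by
    intro v hv
    rw [Finset.mem_union, hT] at hv
    rcases hv with hv | hv
    · exact hsq v hv
    · have hil : ‖(l : AlgebraicClosure ℚ_[l])‖ < 1 := by
        have h1 := PadicAlgCl.norm_extends l (l : ℚ_[l])
        rw [map_natCast] at h1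
        rw [h1]
        exact Padic.norm_p_lt_one
      obtain ⟨τ, hτ⟩ := exists_emb (Om := Om) hlp.out i hil v hv
      exact locPow_of_emb (σ := i.comp τ) hτ (hi τ)
  have key := pow_rec hm0 χ (by rw [hker]; exact hopen) hχ2 (S ∪ T) hunr Fr (fun v _ => hFr v) w hwT π hπ hpos hloc
  rw [hFw w rfl, ← MonoidHom.mem_ker, hker, hH, Subgroup.mem_comap] at key
  exact key

end

end H45P
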