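import Pool.Agent.Lib.H45K.K4c

/-! # H45P, P5: local m-th powers, relative to finitely many elements (Kummer theory of exponent m) -/

set_option autoImplicit false
set_option linter.unusedSectionVars false

open NumberField IsDedekindDomain Polynomial CFT H45K

namespace H45P

/-- Kummer theory for one element: an element of `L` which becomes an `m`-th power in the extension by an `m`-th root of `a` is a power of
`a` times an `m`-th power. -/
theorem p5_ext (L : Type) [Field L] [NumberField L] {m : ℕ} (hm : m ≠ 0) {ζ : L} (hζ : IsPrimitiveRoot ζ m) (a : L) (ha : a ≠ 0) :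
    ∃ (N : Type) (_ : Field N) (_ : NumberField N) (i : L →+* N) (α : N), α ^ m = i a ∧
      ∀ b : L, b ≠ 0 → (∃ β : N, β ^ m = i b) → ∃ (x : ℕ) (c : L), b = a ^ x * c ^ m := by
  classical
  have hmL : (m : L) ≠ 0 := Nat.cast_ne_zero.2 hm
  let f : L[X] := X ^ m - C a
  have hsep : f.Separable := separable_X_pow_sub_C a hmL ha
  have hN0 : CharZero f.SplittingField := charZero_of_injective_algebraMap (algebraMap L f.SplittingField).injective
  have hN : NumberField f.SplittingField := NumberField.of_module_finite L f.SplittingField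
  have hG : IsGalois L f.SplittingField := IsGalois.of_separable_splitting_field hsep
  have hdeg : (f.map (algebraMap L f.SplittingField)).degree ≠ 0 := by
    rw [degree_map, degree_X_pow_sub_C (Nat.pos_of_ne_zero hm)]
    exact_mod_cast hm
  obtain ⟨α, hα⟩ := (SplittingField.splits f).exists_eval_eq_zero hdeg
  have hα1 : α ^ m = algebraMap L f.SplittingField a := by
    rw [eval_map, eval₂_sub, eval₂_pow, eval₂_X, eval₂_C] at hα
    exact sub_eq_zero.1 hα
  refine ⟨f.SplittingField, inferInstance, hN, algebraMap L f.SplittingField, α, hα1, fun b hb ⟨β, hβ⟩ => ?_⟩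
  have hroot : ∀ z : f.SplittingField, z ^ m = 1 → ∃ i < m, algebraMap L f.SplittingField (ζ ^ i) = z := by
    intro z hz
    have h1 : IsPrimitiveRoot (algebraMap L f.SplittingField ζ) m := hζ.map_of_injective (algebraMap L f.SplittingField).injective
    have : NeZero m := ⟨hm⟩
    obtain ⟨i, hi, h2⟩ := h1.eq_pow_of_pow_eq_one hz
    exact ⟨i, hi, by rw [map_pow, h2]⟩
  have hα0 : α ≠ 0 := by
    rintro rfl
    rw [zero_pow hm] at hα1
    exact ha ((map_eq_zero _).1 hα1.symm)
  have hβ0 : β ≠ 0 := by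
    rintro rfl
    rw [zero_pow hm] at hβ
    exact hb ((map_eq_zero _).1 hβ.symm)
  have hact : ∀ (γ : f.SplittingField) (d : L), γ ^ m = algebraMap L f.SplittingField d → γ ≠ 0 →
      ∀ s : f.SplittingField ≃ₐ[L] f.SplittingField, ∃ i < m, s γ = algebraMap L f.SplittingField (ζ ^ i) * γ := by
    intro γ d hγ hγ0 s
    obtain ⟨i, hi, h1⟩ := hroot (s γ / γ) (by
      rw [div_pow, ← map_pow, hγ, s.commutes, ← hγ, div_self (pow_ne_zero _ hγ0)])
    exact ⟨i, hi, by rw [h1, div_mul_cancel₀ _ hγ0]⟩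
  have hA : ∀ s : f.SplittingField ≃ₐ[L] f.SplittingField, ∃ z : L, s α = algebraMap L f.SplittingField z * α := fun s => by
    obtain ⟨i, -, h⟩ := hact α a hα1 hα0 s
    exact ⟨_, h⟩
  choose χ hχ using hA
  have hχinj : Function.Injective χ := by
    intro s t hst
    -- all roots of f are ζ^i α
    have h1 : s α = t α := by rw [hχ, hχ, hst]
    have h2 : ∀ x ∈ f.rootSet f.SplittingField, s x = t x := by
      intro x hx
      rw [mem_rootSet] at hx
      have h3 : x ^ m = algebraMap L f.SplittingField a := by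
        have := hx.2
        rw [aeval_def, eval₂_sub, eval₂_pow, eval₂_X, eval₂_C] at this
        exact sub_eq_zero.1 this
      obtain ⟨i, -, hi⟩ := hroot (x / α) (by rw [div_pow, h3, hα1, div_self]; exact fun h => ha ((map_eq_zero _).1 h))
      have h4 : x = algebraMap L f.SplittingField (ζ ^ i) * α := by rw [hi, div_mul_cancel₀ _ hα0]
      rw [h4, map_mul, map_mul, s.commutes, t.commutes, h1]
    have h3 : (s : f.SplittingField →ₐ[L] f.SplittingField) = t :=
      AlgHom.ext_of_adjoin_eq_top (SplittingField.adjoin_rootSet f) h2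
    exact AlgEquiv.ext fun x => DFunLike.congr_fun h3 x
  have hχ1 : χ 1 = 1 := by
    have h1 := hχ 1
    rw [AlgEquiv.one_apply] at h1
    have h2 : algebraMap L f.SplittingField (χ 1) = algebraMap L f.SplittingField 1 := by
      rw [map_one]
      exact mul_right_cancel₀ hα0 (by rw [← h1, one_mul])
    exact (algebraMap L f.SplittingField).injective h2
  have hχm : ∀ s t, χ (s * t) = χ s * χ t := by
    intro s t
    apply (algebraMap L f.SplittingField).injective
    apply mul_right_cancel₀ hα0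
    rw [← hχ, AlgEquiv.mul_apply, hχ t, map_mul, s.commutes, hχ s, map_mul]
    ring
  let χ' : (f.SplittingField ≃ₐ[L] f.SplittingField) →* L := ⟨⟨χ, hχ1⟩, hχm⟩
  have hcyc : IsCyclic (f.SplittingField ≃ₐ[L] f.SplittingField) := isCyclic_of_subgroup_isDomain χ' hχinj
  obtain ⟨σ, hσ⟩ := hcyc.exists_generator
  have hord : IsPrimitiveRoot (χ σ) (orderOf σ) := by
    have h1 : orderOf (χ' σ) = orderOf σ := orderOf_injective χ' hχinj σ
    have h2 := IsPrimitiveRoot.orderOf (χ' σ)
    rwa [h1] at h2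
  obtain ⟨j, -, hj⟩ := hact β b hβ hβ0 σ
  have hpow : ∀ k : ℕ, (σ ^ k) β = algebraMap L f.SplittingField ((ζ ^ j) ^ k) * β := by
    intro k
    induction k with
    | zero => rw [pow_zero, pow_zero, map_one, one_mul, AlgEquiv.one_apply]
    | succ k ih =>
      rw [pow_succ', AlgEquiv.mul_apply, ih, map_mul, σ.commutes, hj, pow_succ', map_mul]
      ring
  have hz1 : (ζ ^ j) ^ orderOf σ = 1 := by
    have h1 := hpow (orderOf σ)
    rw [pow_orderOf_eq_one, AlgEquiv.one_apply] at h1
    apply (algebraMap L f.SplittingField).injective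
    rw [map_one]
    exact mul_right_cancel₀ hβ0 (by rw [← h1, one_mul])
  have hfin : 0 < orderOf σ := orderOf_pos σ
  have : NeZero (orderOf σ) := ⟨hfin.ne'⟩
  obtain ⟨x, -, hx⟩ := hord.eq_pow_of_pow_eq_one hz1
  -- β / α ^ x is fixed by σ
  obtain ⟨γ, hγ⟩ : ∃ γ, γ = β / α ^ x := ⟨_, rfl⟩
  have hγσ : σ γ = γ := by
    rw [hγ, map_div₀, map_pow, hj, hχ, mul_pow, ← map_pow, hx, mul_div_mul_left]
    intro h
    have h1 := (map_eq_zero _).1 h
    rw [h1, zero_pow hfin.ne'] at hz1
    exact zero_ne_one hz1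
  have hγall : ∀ s : f.SplittingField ≃ₐ[L] f.SplittingField, s γ = γ := by
    intro s
    obtain ⟨k, rfl⟩ := Subgroup.mem_zpowers_iff.1 (hσ s)
    have h1 : σ ∈ MulAction.stabilizer (f.SplittingField ≃ₐ[L] f.SplittingField) γ := hγσ
    exact (MulAction.stabilizer (f.SplittingField ≃ₐ[L] f.SplittingField) γ).zpow_mem h1 k
  obtain ⟨c, hc⟩ := (IsGalois.mem_range_algebraMap_iff_fixed γ).2 hγall
  refine ⟨x, c, ?_⟩
  apply (algebraMap L f.SplittingField).injective
  rw [map_mul, map_pow, map_pow, hc, hγ, ← hβ, div_pow, ← hα1, ← pow_mul, ← pow_mul, mul_comm x m,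
    mul_div_cancel₀ _ (pow_ne_zero _ hα0)]

/-- Relative local-global principle for `m`-th powers. -/
theorem p5_fin {m : ℕ} (hm : m ≠ 0) (n : ℕ) : ∀ (L : Type) [Field L] [NumberField L] (ζ : L) (_ : IsPrimitiveRoot ζ m) (a : Fin n → L)
    (_ : ∀ k, a k ≠ 0) (b : L) (_ : b ≠ 0) (B : ℕ)
    (_ : ∀ (l : ℕ) [Fact l.Prime], B < l → ∀ j : L →+* ℚ_[l], (∀ k, ∃ c, c ^ m = j (a k)) → ∃ c, c ^ m = j b),
    ∃ (x : Fin n → ℕ) (c : L), b = (∏ k, a k ^ x k) * c ^ m := by
  induction n with
  | zero =>
    intro L _ _ ζ hζ a _ b _ B h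
    obtain ⟨c, hc⟩ := k4_main L m hm ζ hζ b B (fun l hl hB j => h l hB j (fun k => k.elim0))
    exact ⟨fun _ => 0, c, by rw [Finset.prod_eq_one (fun k _ => pow_zero _), one_mul, hc]⟩
  | succ n ih =>
    intro L _ _ ζ hζ a ha b hb B h
    obtain ⟨N, _, _, i, α, hα, hN⟩ := p5_ext L hm hζ (a 0) (ha 0)
    obtain ⟨x, c, hc⟩ := ih N (i ζ) (hζ.map_of_injective i.injective) (fun k => i (a k.succ))
      (fun k => (map_ne_zero i).2 (ha _)) (i b) ((map_ne_zero i).2 hb) B (fun l hl hB j hj => h l hB (j.comp i) (fun k => by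
        refine Fin.cases ?_ ?_ k
        · exact ⟨j α, by rw [← map_pow, hα]; rfl⟩
        · exact hj))
    have hp : (∏ k : Fin n, a k.succ ^ x k) ≠ 0 := Finset.prod_ne_zero_iff.2 fun k _ => pow_ne_zero _ (ha _)
    obtain ⟨y, d, hd⟩ := hN (b / ∏ k : Fin n, a k.succ ^ x k) (div_ne_zero hb hp) ⟨c, by
      rw [map_div₀, hc, map_prod]
      simp only [map_pow]
      rw [mul_div_cancel_left₀]
      rw [← map_ne_zero i, map_prod] at hp
      simpa only [map_pow] using hp⟩
    refine ⟨Fin.cons y x, d, ?_⟩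
    rw [Fin.prod_univ_succ, Fin.cons_zero]
    simp only [Fin.cons_succ]
    rw [div_eq_iff hp] at hd
    rw [hd]
    ring

end H45P
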