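import Pool.Agent.Lib.H45P.P5
import Pool.Agent.Lib.H45K.K6
import Pool.Agent.Lib.H45P.P0

/-! # H45P, P6: the clause cheb for m-th powers -/

set_option autoImplicit false
set_option linter.unusedSectionVars false

open NumberField IsDedekindDomain Polynomial CFT H45K

namespace H45P

open Pool.Agent.H76Q

section

variable {Ω : Type} [Field Ω] [CharZero Ω] [IsAlgClosed Ω] [Algebra.IsAlgebraic ℚ Ω]

/-- The clause `cheb` for `m`-th powers. -/
theorem chebm {m : ℕ} (hm : m ≠ 0) (R : Finset Ω) (N : Set ℕ) (hN : N.Finite) (Γ : Subgroup (Ω ≃+* Ω))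
    (hT : ∃ T : Finset Ω, ∀ s : Ω ≃+* Ω, (∀ x ∈ T, s x = x) → s ∈ Γ)
    (hμ : ∀ s ∈ Γ, ∀ z : Ω, z ^ m = 1 → s z = z)
    (hR : ∀ s ∈ Γ, ∀ r ∈ R, s r = r) (a : Ω) (ha0 : a ≠ 0) (ha : ∀ s ∈ Γ, s a = a)
    (h : ∀ (l : ℕ) [Fact l.Prime], l ∉ N → ∀ i : Ω →+* AlgebraicClosure ℚ_[l],
      Dec ℚ_[l] Γ i → (∀ r ∈ R, PowIn m ℚ_[l] (i r)) → PowIn m ℚ_[l] (i a)) :
    ∃ (x : Ω → ℕ) (c : Ω), c ≠ 0 ∧ (∀ s ∈ Γ, s c = c) ∧ a = (∏ r ∈ R, r ^ x r) * c ^ m := by
  classical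
  obtain ⟨E, hfin, hE1, hE2⟩ := k6_field Γ hT
  have hEn : NumberField E := NumberField.of_module_finite ℚ E
  obtain ⟨B, hB⟩ := hN.bddAbove
  have hmΩ : NeZero (m : Ω) := ⟨Nat.cast_ne_zero.2 hm⟩
  obtain ⟨ζ, hζ⟩ := HasEnoughRootsOfUnity.exists_primitiveRoot Ω m
  have hζE : ζ ∈ E := (hE1 ζ).2 fun s hs => hμ s hs ζ hζ.pow_eq_one
  have hζ' : IsPrimitiveRoot (⟨ζ, hζE⟩ : E) m := hζ.of_map_of_injective (f := algebraMap E Ω) (algebraMap E Ω).injective
  have haE : a ∈ E := (hE1 a).2 ha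
  obtain ⟨S, hS⟩ : ∃ S, S = R.filter (fun r => r ≠ 0) := ⟨_, rfl⟩
  have hSR : ∀ r ∈ S, r ∈ R ∧ r ≠ 0 := fun r hr => by
    rw [hS] at hr
    exact Finset.mem_filter.1 hr
  let e := S.equivFin
  have hSE : ∀ k : Fin S.card, ((e.symm k : S) : Ω) ∈ E := fun k =>
    (hE1 _).2 fun s hs => hR s hs _ (hSR _ (e.symm k).2).1
  obtain ⟨x, c, hc⟩ := p5_fin hm S.card E ⟨ζ, hζE⟩ hζ' (fun k => ⟨_, hSE k⟩)
    (fun k h0 => (hSR _ (e.symm k).2).2 (congrArg (fun z : E => (z : Ω)) h0)) ⟨a, haE⟩ (fun h0 => ha0 (congrArg (fun z : E => (z : Ω)) h0)) B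
    (fun l hl hlB j hj => by
      have hlN : l ∉ N := fun h => absurd (hB h) (not_le.2 hlB)
      let _ : Algebra E (AlgebraicClosure ℚ_[l]) := ((algebraMap ℚ_[l] (AlgebraicClosure ℚ_[l])).comp j).toAlgebra
      have halg : Algebra.IsAlgebraic E Ω := Algebra.IsAlgebraic.tower_top (K := ℚ) E
      let i : Ω →ₐ[E] AlgebraicClosure ℚ_[l] := IsAlgClosed.lift
      have hi : ∀ x : E, i (x : Ω) = algebraMap ℚ_[l] (AlgebraicClosure ℚ_[l]) (j x) := fun x => i.commutes x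
      have h1 := h l hlN i.toRingHom (fun t s hts => by
        refine hE2 s fun x hx => ?_
        apply i.toRingHom.injective
        show i (s x) = i x
        have h2 : t (i x) = i (s x) := hts x
        have h3 : i x = algebraMap ℚ_[l] (AlgebraicClosure ℚ_[l]) (j ⟨x, hx⟩) := hi ⟨x, hx⟩
        rw [← h2, h3, t.commutes]) (fun r hr => by
        by_cases hr0 : r = 0
        · refine ⟨0, ?_⟩
          rw [hr0, map_zero, map_zero, zero_pow hm]
        · have hrS : r ∈ S := by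
            rw [hS]
            exact Finset.mem_filter.2 ⟨hr, hr0⟩
          obtain ⟨y, hy⟩ := hj (e ⟨r, hrS⟩)
          refine ⟨y, ?_⟩
          rw [← map_pow, hy]
          have h4 : (⟨((e.symm (e ⟨r, hrS⟩) : S) : Ω), hSE _⟩ : E) = ⟨r, (hE1 _).2 fun s hs => hR s hs _ hr⟩ := by
            apply Subtype.ext
            show ((e.symm (e ⟨r, hrS⟩) : S) : Ω) = r
            rw [e.symm_apply_apply]
          rw [h4]
          exact hi ⟨r, _⟩)
      obtain ⟨y, hy⟩ := h1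
      refine ⟨y, ?_⟩
      apply (algebraMap ℚ_[l] (AlgebraicClosure ℚ_[l])).injective
      rw [← hi, map_pow]
      exact hy.symm)
  refine ⟨fun r => if hr : r ∈ S then x (e ⟨r, hr⟩) else 0, c, ?_, (hE1 _).1 c.2, ?_⟩
  · intro h0
    have h1 : c = 0 := Subtype.ext h0
    rw [h1, zero_pow hm, mul_zero] at hc
    exact ha0 (congrArg (fun z : E => (z : Ω)) hc)
  · have h2 := congrArg (algebraMap E Ω) hc
    rw [map_mul, map_pow, map_prod] at h2
    simp only [map_pow] at h2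
    have h3 : (∏ r ∈ S, r ^ (if hr : r ∈ S then x (e ⟨r, hr⟩) else 0)) = ∏ k : Fin S.card, algebraMap E Ω ⟨((e.symm k : S) : Ω), hSE k⟩ ^ x k := by
      rw [← Finset.prod_coe_sort S, ← e.symm.prod_comp]
      refine Finset.prod_congr rfl fun k _ => ?_
      rw [dif_pos (e.symm k).2, Subtype.coe_eta, e.apply_symm_apply]
      rfl
    have h4 : (∏ r ∈ R, r ^ (if hr : r ∈ S then x (e ⟨r, hr⟩) else 0)) = ∏ r ∈ S, r ^ (if hr : r ∈ S then x (e ⟨r, hr⟩) else 0) := by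
      refine (Finset.prod_subset (fun r hr => (hSR r hr).1) fun r _ hr => ?_).symm
      rw [dif_neg hr, pow_zero]
    rw [h4, h3]
    exact h2

end

end H45P
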