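import Pool.Agent.Lib.H45K.K70

/-! # H45P, P7: automorphisms which act trivially on the residue field fix the m-th roots of unity, `p` prime to `m` -/

set_option autoImplicit false
set_option linter.unusedSectionVars false

namespace H45P

open H45K

theorem mu_fix {K : Type*} [Field K] {v : K → ℚ} (hv : IsV v) {p : ℕ} (hp : p.Prime) (h1 : v (p : K) = 1) {m : ℕ}
    (hm : ¬ p ∣ m) (δ : K ≃+* K) (dres : ∀ x : K, x ≠ 0 → 0 ≤ v x → δ x = x ∨ 0 < v (δ x - x)) (z : K) (hz : z ^ m = 1) : δ z = z := by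
  have hm0 : m ≠ 0 := fun h => hm (h ▸ dvd_zero p)
  have hz0 : z ≠ 0 := by
    rintro rfl
    rw [zero_pow hm0] at hz
    exact zero_ne_one hz
  have hvz : v z = 0 := by
    have h2 := hv.pow hz0 m
    rw [hz, hv.one] at h2
    have h3 : (m : ℚ) ≠ 0 := Nat.cast_ne_zero.2 hm0
    exact (mul_eq_zero.1 h2.symm).resolve_left h3
  rcases dres z hz0 hvz.ge with h | h
  · exact h
  by_contra hne
  obtain ⟨t, ht⟩ : ∃ t, t = δ z / z := ⟨_, rfl⟩
  have htz : δ z = t * z := by rw [ht, div_mul_cancel₀ _ hz0]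
  have ht1 : t ≠ 1 := fun h2 => hne (by rw [htz, h2, one_mul])
  have htm : t ^ m = 1 := by rw [ht, div_pow, ← map_pow, hz, map_one, div_one]
  have hpv : PV v (t - 1) := by
    right
    have h2 : δ z - z = (t - 1) * z := by rw [htz]; ring
    rw [h2, hv.mul _ _ (sub_ne_zero.2 ht1) hz0, hvz, add_zero] at h
    exact h
  have hnt : NN v t := by
    have h2 : t = (t - 1) + 1 := by ring
    rw [h2]
    exact hv.nn_add hpv.nn hv.nn_one
  have hntk : ∀ k : ℕ, NN v (t ^ k) := by
    intro k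
    induction k with
    | zero => rw [pow_zero]; exact hv.nn_one
    | succ k ih => rw [pow_succ]; exact hv.nn_mul ih hnt
  have hsum : ∑ k ∈ Finset.range m, t ^ k = 0 := by
    have h2 := mul_neg_geom_sum t m
    rw [htm, sub_self] at h2
    exact (mul_eq_zero.1 h2).resolve_left (sub_ne_zero.2 fun h3 => ht1 h3.symm)
  have hmv : PV v (m : K) := by
    have h2 : (m : K) = -∑ k ∈ Finset.range m, (t ^ k - 1) := by
      rw [Finset.sum_sub_distrib, hsum, Finset.sum_const, Finset.card_range, nsmul_eq_mul]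
      ring
    rw [h2]
    refine hv.pv_neg (hv.pv_sum _ _ fun k _ => ?_)
    rw [← mul_geom_sum]
    exact hv.pv_mul hpv (hv.nn_sum _ _ fun j _ => hntk j)
  have hpp : PV v (p : K) := Or.inr (by rw [h1]; exact one_pos)
  have hnn : ∀ k : ℕ, NN v (k : K) := by
    intro k
    induction k with
    | zero => rw [Nat.cast_zero]; exact nn_zero
    | succ k ih => rw [Nat.cast_succ]; exact hv.nn_add ih hv.nn_one
  have hnz : ∀ k : ℤ, NN v (k : K) := by
    intro k
    obtain ⟨k, rfl | rfl⟩ := k.eq_nat_or_neg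
    · rw [Int.cast_natCast]
      exact hnn k
    · rw [Int.cast_neg, Int.cast_natCast]
      exact hv.nn_neg (hnn k)
  have hcop : IsCoprime (p : ℤ) (m : ℤ) := Nat.isCoprime_iff_coprime.2 ((Nat.Prime.coprime_iff_not_dvd hp).2 hm)
  obtain ⟨a, b, hab⟩ := hcop
  apply hv.not_pv_one
  have h3 : (1 : K) = (p : K) * (a : K) + (m : K) * (b : K) := by
    have := congrArg (fun t : ℤ => (t : K)) hab
    push_cast at this
    rw [← this]
    ring
  rw [h3]
  exact hv.pv_add (hv.pv_mul hpp (hnz a)) (hv.pv_mul hmv (hnz b))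

end H45P
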