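import Pool.Agent.Lib.H45P.P3
import Pool.Agent.Lib.H45P.P13
import Pool.Agent.Lib.H45P.P6
import Pool.Agent.Lib.H45K.K10a

/-! # H45P, P8: the arithmetic conditions for `m`-th powers hold over a number field -/

set_option autoImplicit false
set_option linter.unusedSectionVars false

open NumberField IsDedekindDomain

namespace H45P

open CFT ST32 H45K Pool.Agent.H76Q

theorem arithM {m : ℕ} (hm : m ≠ 0) {ι : Type} [Fintype ι] [DecidableEq ι]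
    {F : Type} [Field F] [NumberField F] {Ω : Type} [Field Ω] [CharZero Ω] [Algebra F Ω] [IsAlgClosure F Ω]
    (ρ : ∀ (l : ℕ) [Fact l.Prime], (Ω ≃ₐ[F] Ω) →* Matrix.GeneralLinearGroup ι ℚ_[l])
    (cont : ∀ (l : ℕ) [Fact l.Prime], Continuous fun g => (ρ l g : Matrix ι ι ℚ_[l]))
    (S : Finset (CFT.Pr F))
    (unr : ∀ (l : ℕ) [Fact l.Prime], ∀ v ∉ S, (l : 𝓞 F) ∉ v.asIdeal →
      ∀ P : Ideal (𝓞 Ω), Above v P → ∀ g : Ω ≃ₐ[F] Ω, Inert P g → ρ l g = 1)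
    (p : ℕ) [hpf : Fact p.Prime] (w : CFT.Pr F) (hwS : w ∉ S) (hwp : Ideal.absNorm w.asIdeal = p)
    (π : 𝓞 F) (hwπ : w.asIdeal = Ideal.span {π}) (hpos : ∀ τ : F →+* ℝ, 0 < τ π)
    (hcong : ∀ v ∈ S, π - 1 ∈ Ideal.span {(m : 𝓞 F) ^ 2} * v.asIdeal)
    (σ : Ω ≃ₐ[F] Ω) (hσ : IsFrv w σ) (R : Finset Ω) (hR : ∀ x, x ∈ R ↔ ∃ τ : F →+* Ω, τ (π : F) = x) :
    ArithM m R {l | l ∣ m * p} ρ σ := by
  classical
  have hp : p.Prime := hpf.out
  have hcl : IsAlgClosed Ω := IsAlgClosure.isAlgClosed F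
  have halgF : Algebra.IsAlgebraic F Ω := IsAlgClosure.isAlgebraic
  have halg : Algebra.IsAlgebraic ℚ Ω := Algebra.IsAlgebraic.trans ℚ F Ω
  have hdv : CFT.dv (π : F) = Finsupp.single w 1 := H45K.dv_gen hwπ
  have hNf : ({l | l ∣ m * p} : Set ℕ).Finite := by
    refine (Finset.finite_toSet (Nat.divisors (m * p))).subset fun l hl => ?_
    rw [Finset.mem_coe, Nat.mem_divisors]
    exact ⟨hl, Nat.mul_ne_zero hm hp.ne_zero⟩
  refine ⟨fun l hl hlN i hi => ?_, fun Γ hT hμ hΓR a ha0 ha h => chebm hm R _ hNf Γ hT hμ hΓR a ha0 ha h⟩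
  have hlm : ¬ l ∣ m := fun h => hlN (h.mul_right p)
  have hlp : l ≠ p := fun h => hlN (by rw [Set.mem_ofPred_eq, h]; exact dvd_mul_left p m)
  refine reclm hm hlm (ρ l) (cont l) S (unr l) w hwS ?_ σ hσ (π : F) hdv hpos
      (fun u hu => pow_of_cong u hm π (hcong u hu)) i (fun τ => by
        obtain ⟨y, hy⟩ := hi _ ((hR _).2 ⟨τ, rfl⟩)
        exact ⟨y, hy⟩)
  intro hlw
  have hpw : ((p : ℕ) : 𝓞 F) ∈ w.asIdeal := by
    rw [← hwp]
    exact Ideal.absNorm_mem _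
  have h1 : IsCoprime (l : ℤ) (p : ℤ) := by
    rw [Nat.isCoprime_iff_coprime]
    exact (Nat.coprime_primes hl.out hp).2 hlp
  obtain ⟨u, t, hut⟩ := h1
  apply w.isPrime.ne_top
  rw [Ideal.eq_top_iff_one]
  have h3 : (1 : 𝓞 F) = (u : 𝓞 F) * (l : 𝓞 F) + (t : 𝓞 F) * (p : 𝓞 F) := by
    have := congrArg (fun t : ℤ => (t : 𝓞 F)) hut
    push_cast at this
    exact this.symm
  rw [h3]
  exact w.asIdeal.add_mem (w.asIdeal.mul_mem_left _ hlw) (w.asIdeal.mul_mem_left _ hpw)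

end H45P
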